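import Mathlib

set_option autoImplicit false

namespace Pool.Agent.Results.MP_e68b86_nt.Counter

open Polynomial

/-- `S P s n` is `S_s(n)` for `n ≥ 1` -/
def S (P : ℤ[X]) (s : ℕ) : ℕ → ℤ
  | 0 => s
  | 1 => s
  | n + 2 => |S P s (n + 1) - Int.gcd (S P s (n + 1)) (P.eval ((n + 2 : ℕ) : ℤ))|

/-- positive rational prime -/
def IsP (z : ℤ) : Prop := ∃ p : ℕ, p.Prime ∧ z = p

/-- `s` is good for `∏ Q j` -/
def Good {m : ℕ} (Q : Fin m → ℤ[X]) (s : ℕ) : Prop :=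
  {n | 1 ≤ n ∧ S (∏ j, Q j) s n = 0}.Infinite ∧
    ∀ n, 2 ≤ n → S (∏ j, Q j) s n = 0 → ∀ j, IsP ((Q j).eval ((n + 1 : ℕ) : ℤ))

theorem result : ¬ ∀ (m : ℕ) (Q : Fin m → ℤ[X]), 1 ≤ m → (∀ j, Irreducible (Q j) ∧ 0 < (Q j).natDegree) →
    {k : ℕ | 0 < k ∧ ∀ j, IsP ((Q j).eval (k : ℤ))}.Infinite → {s | 0 < s ∧ Good Q s}.Infinite := fun h => by
  obtain ⟨s, -, -, h⟩ := (h 1 (fun _ => X - C 3) le_rfl (fun _ => ⟨irreducible_X_sub_C 3, by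
    rw [natDegree_X_sub_C]; exact one_pos⟩) (Set.infinite_of_forall_exists_gt fun a => by
      obtain ⟨p, h1, h2⟩ := Nat.exists_infinite_primes a
      exact ⟨p + 3, ⟨by omega, fun _ => ⟨p, h2, by simp⟩⟩, by omega⟩)).nonempty
  obtain ⟨p, h1, h2⟩ := h 3 (by norm_num) (by rw [S, S]; simp) 0
  obtain rfl : p = 1 := by simp at h2; omega
  exact Nat.not_prime_one h1

end Pool.Agent.Results.MP_e68b86_nt.Counter
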